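import Mathlib

/-!
MP_8358b8_al (owner helper38), module AutF2-iso: the isotropic subspace bound.
-/

set_option autoImplicit false

namespace Pool.Agent.Helper26.AutF

open Matrix

/-- The alternating form on the sum of a space and its dual. -/
noncomputable def Om (m : ℕ) : LinearMap.BilinForm ℚ ((Fin m → ℚ) × (Fin m → ℚ)) :=
  LinearMap.mk₂ ℚ (fun x y => y.2 ⬝ᵥ x.1 - x.2 ⬝ᵥ y.1)
    (fun x x' y => by simp only [Prod.fst_add, Prod.snd_add, dotProduct_add, add_dotProduct]; ring)
    (fun c x y => by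
      simp only [Prod.smul_fst, Prod.smul_snd, dotProduct_smul, smul_dotProduct, smul_eq_mul]; ring)
    (fun x y y' => by simp only [Prod.fst_add, Prod.snd_add, dotProduct_add, add_dotProduct]; ring)
    (fun c x y => by
      simp only [Prod.smul_fst, Prod.smul_snd, dotProduct_smul, smul_dotProduct, smul_eq_mul]; ring)

theorem Om_apply (m : ℕ) (x y : (Fin m → ℚ) × (Fin m → ℚ)) :
    Om m x y = y.2 ⬝ᵥ x.1 - x.2 ⬝ᵥ y.1 := rfl

theorem Om_nondeg (m : ℕ) (x : (Fin m → ℚ) × (Fin m → ℚ)) (h : ∀ y, Om m x y = 0) : x = 0 := by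
  have h1 : x.1 = 0 := by
    funext i
    have := h (0, Pi.single i 1)
    rw [Om_apply] at this
    simpa using this
  have h2 : x.2 = 0 := by
    funext i
    have := h (Pi.single i 1, 0)
    rw [Om_apply] at this
    simpa using this
  exact Prod.ext h1 h2

/-- An isotropic subspace has dimension at most `m`. -/
theorem isotropic_le (m : ℕ) (S : Submodule ℚ ((Fin m → ℚ) × (Fin m → ℚ)))
    (hS : ∀ x ∈ S, ∀ y ∈ S, Om m x y = 0) : Module.finrank ℚ S ≤ m := by
  -- the map to the dual
  let Φ : ((Fin m → ℚ) × (Fin m → ℚ)) →ₗ[ℚ] Module.Dual ℚ S :=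
    (Submodule.dualRestrict S).comp (Om m)
  have hinj : Function.Injective (Om m) := by
    rw [← LinearMap.ker_eq_bot, LinearMap.ker_eq_bot']
    intro x hx
    exact Om_nondeg m x fun y => by rw [hx]; rfl
  have hsurjOm : Function.Surjective (Om m) := by
    refine (LinearMap.injective_iff_surjective_of_finrank_eq_finrank ?_).1 hinj
    rw [Subspace.dual_finrank_eq]
  have hsurj : Function.Surjective Φ :=
    (Subspace.dualRestrict_surjective).comp hsurjOm
  have hker : S ≤ LinearMap.ker Φ := by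
    intro x hx
    rw [LinearMap.mem_ker]
    refine LinearMap.ext fun y => ?_
    exact hS x hx y y.2
  have h1 := LinearMap.finrank_range_add_finrank_ker Φ
  rw [LinearMap.range_eq_top.2 hsurj, finrank_top, Subspace.dual_finrank_eq,
    Module.finrank_prod, Module.finrank_fin_fun] at h1
  have h2 := Submodule.finrank_mono hker
  omega

theorem iso_bound {m : ℕ} {τ ρ : Type*} [Fintype τ] (v φ : Fin m → ℚ)
    (b : τ → Matrix (Fin m) (Fin m) ℚ) (M : Matrix (Fin m) (Fin m) ℚ)
    (P : ρ → Matrix (Fin m) (Fin m) ℚ)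
    (hbb : ∀ s t, b s * b t = b t * b s)
    (hM : φ ⬝ᵥ (M *ᵥ v) ≠ 0) (hMM : φ ⬝ᵥ ((M * M) *ᵥ v) = 0)
    (hbM : ∀ t, φ ⬝ᵥ ((b t * M) *ᵥ v) = φ ⬝ᵥ (M *ᵥ v))
    (hMb : ∀ t, φ ⬝ᵥ ((M * b t) *ᵥ v) = φ ⬝ᵥ (M *ᵥ v))
    (hPM : ∀ r, φ ⬝ᵥ ((P r * M) *ᵥ v) = φ ⬝ᵥ (M *ᵥ v))
    (hMP : ∀ r, φ ⬝ᵥ ((M * P r) *ᵥ v) = φ ⬝ᵥ (M *ᵥ v))
    (hli : LinearIndependent ℚ
      (fun t : τ => fun r : ρ => φ ⬝ᵥ ((b t * P r - P r * b t) *ᵥ v))) :
    Fintype.card τ + 2 ≤ m := by
  have hassoc : ∀ A B : Matrix (Fin m) (Fin m) ℚ,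
      (φ ᵥ* A) ⬝ᵥ (B *ᵥ v) = φ ⬝ᵥ ((A * B) *ᵥ v) := by
    intro A B
    rw [← Matrix.dotProduct_mulVec, Matrix.mulVec_mulVec]
  have hassoc0 : ∀ A : Matrix (Fin m) (Fin m) ℚ, (φ ᵥ* A) ⬝ᵥ v = φ ⬝ᵥ (A *ᵥ v) := by
    intro A
    rw [← Matrix.dotProduct_mulVec]
  -- the vectors
  let X : Option (Option τ) → (Fin m → ℚ) × (Fin m → ℚ) := fun o =>
    match o with
    | none => (v, φ)
    | some none => (M *ᵥ v, φ ᵥ* M)
    | some (some t) => (b t *ᵥ v, φ ᵥ* b t)
  have hiso : ∀ o o', Om m (X o) (X o') = 0 := by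
    intro o o'
    rcases o with _ | _ | s <;> rcases o' with _ | _ | t <;>
      simp only [X, Om_apply, hassoc, hassoc0, sub_self, hMb, hbM]
    rw [hbb s t, sub_self]
  have hind : LinearIndependent ℚ X := by
    rw [Fintype.linearIndependent_iff]
    intro g hg
    rw [Fintype.sum_option, Fintype.sum_option] at hg
    have h1 := congrArg Prod.fst hg
    have h2 := congrArg Prod.snd hg
    simp only [Prod.fst_add, Prod.smul_fst, Prod.fst_sum, Prod.fst_zero, X] at h1
    simp only [Prod.snd_add, Prod.smul_snd, Prod.snd_sum, Prod.snd_zero, X] at h2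
    -- coefficients of the `X_t`
    have hg2 : ∀ t, g (some (some t)) = 0 := by
      rw [Fintype.linearIndependent_iff] at hli
      refine hli (fun t => g (some (some t))) ?_
      funext r
      have h3 := congrArg (fun z => z ⬝ᵥ (P r *ᵥ v)) h2
      have h4 := congrArg (fun z => (φ ᵥ* P r) ⬝ᵥ z) h1
      simp only [add_dotProduct, smul_dotProduct, sum_dotProduct, dotProduct_add, dotProduct_smul,
        dotProduct_sum, hassoc, hassoc0, zero_dotProduct, dotProduct_zero, smul_eq_mul,
        hMP, hPM] at h3 h4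
      simp only [Finset.sum_apply, Pi.smul_apply, smul_eq_mul, Pi.zero_apply, Matrix.sub_mulVec,
        dotProduct_sub, mul_sub, Finset.sum_sub_distrib]
      linear_combination h3 - h4
    have h5 : g none • v + g (some none) • (M *ᵥ v) = 0 := by
      rw [← h1]
      simp [hg2]
    have h6 := congrArg (fun z => (φ ᵥ* M) ⬝ᵥ z) h5
    simp only [dotProduct_add, dotProduct_smul, hassoc, hassoc0, dotProduct_zero, smul_eq_mul,
      hMM, mul_zero, add_zero] at h6
    have h7 : g none = 0 := (mul_eq_zero.1 h6).resolve_right hM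
    have h8 := congrArg (fun z => φ ⬝ᵥ z) h5
    simp only [dotProduct_add, dotProduct_smul, dotProduct_zero, smul_eq_mul, h7, zero_mul,
      zero_add] at h8
    have h9 : g (some none) = 0 := (mul_eq_zero.1 h8).resolve_right hM
    intro o
    rcases o with _ | _ | t
    · exact h7
    · exact h9
    · exact hg2 t
  have hfr := finrank_span_eq_card hind
  rw [Fintype.card_option, Fintype.card_option] at hfr
  have hle := isotropic_le m (Submodule.span ℚ (Set.range X)) (by
    intro x hx y hy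
    induction hx using Submodule.span_induction with
    | mem x hx =>
      obtain ⟨o, rfl⟩ := hx
      induction hy using Submodule.span_induction with
      | mem y hy => obtain ⟨o', rfl⟩ := hy; exact hiso o o'
      | zero => rw [map_zero]
      | add y y' _ _ h h' => rw [map_add, h, h', add_zero]
      | smul c y _ h => rw [map_smul, h, smul_zero]
    | zero => rw [map_zero]; rfl
    | add x x' _ _ h h' => rw [map_add, LinearMap.add_apply, h, h', add_zero]
    | smul c x _ h => rw [map_smul, LinearMap.smul_apply, h, smul_zero])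
  omega

end Pool.Agent.Helper26.AutF
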